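import Mathlib
import Pool.Agent.Helper62.NT.Goals

/-! Packet NT-WIN (MP_8ff381_an). -/

set_option autoImplicit false

noncomputable section

namespace Pool.Agent.Helper81.NT.WIN

open Pool.Agent.Helper62.NT

variable {H : Type} [MetricSpace H]

theorem s_pos (D : CD H) (n : ℕ) : 0 < D.s n := by
  have h1 := D.hΔ
  have h2 : (0 : ℝ) < D.B := by
    have := D.hB
    exact_mod_cast (by omega : 0 < D.B)
  unfold CD.s
  positivity

theorem s_mul (D : CD H) (n j : ℕ) : D.s n = (D.B : ℝ) ^ j * D.s (n + j) := by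
  have h2 : (0 : ℝ) < D.B := by
    have := D.hB
    exact_mod_cast (by omega : 0 < D.B)
  unfold CD.s
  rw [pow_add]
  field_simp

theorem no_cut (D : CD H) (x : H) (n k : ℕ) (hn : 1 ≤ n) (hk : 1 ≤ k)
    (hx : ((k : ℝ) + 1) * D.s n ≤ D.R.dep x)
    (hkept : D.R.res x (((k : ℝ) + 1) * D.s n) ∈ D.kept n (D.R.res x (k * D.s n)))
    (hno : ∀ (m : ℕ) (z : ℝ), m < n → k * D.s n ≤ z → z < (k + 1) * D.s n → ¬ D.CP m x z)
    (n₁ : ℕ) (z : ℝ) (h1 : k * D.s n ≤ z) (h2 : z < (k + 1) * D.s n) : ¬ D.CP n₁ x z := by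
  intro hcp
  have hlt : ¬ n₁ < n := fun h => hno n₁ z h h1 h2 hcp
  obtain ⟨j, rfl⟩ := Nat.exists_eq_add_of_le (not_lt.1 hlt)
  rw [CD.CP] at hcp
  obtain ⟨k₁, -, -, ha, hb, -, ⟨z', hz, hz', hz'', -, hp⟩, -⟩ := hcp
  have hs := s_pos D (n + j)
  have hsn := s_pos D n
  have hle : ((k₁ : ℝ) + 1) * D.s (n + j) ≤ (k + 1) * D.s n := by
    rw [s_mul D n j, ← mul_assoc] at h2 ⊢
    have h3 : (k₁ : ℝ) < (k + 1) * (D.B : ℝ) ^ j := by
      by_contra hcon
      rw [not_lt] at hcon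
      have := mul_le_mul_of_nonneg_right hcon hs.le
      linarith
    have h4 : k₁ < (k + 1) * D.B ^ j := by exact_mod_cast h3
    have h5 : (k₁ : ℝ) + 1 ≤ (k + 1) * (D.B : ℝ) ^ j := by exact_mod_cast h4
    exact mul_le_mul_of_nonneg_right h5 hs.le
  have hzk : z' ≤ (k + 1) * D.s n := hz''.trans hle
  have hk0 : 0 ≤ (k : ℝ) * D.s n := by positivity
  have hkz : (k : ℝ) * D.s n < z' := lt_of_le_of_lt h1 hz
  have hz0 : 0 ≤ z' := hk0.trans hkz.le
  refine hp z' hz le_rfl ⟨n, k, hn, by omega, hk, ?_, ?_, D.R.res x (((k : ℝ) + 1) * D.s n), ?_, ?_⟩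
  · rw [D.R.dep_res x z' hz0 hz']
    exact hkz
  · rw [D.R.dep_res x z' hz0 hz']
    exact hzk
  · rw [D.R.res_res x _ z' hk0 hkz.le hz']
    exact hkept
  · have hd : D.R.dep (D.R.res x (((k : ℝ) + 1) * D.s n)) = (k + 1) * D.s n :=
      D.R.dep_res x _ (by positivity) hx
    refine ⟨?_, ?_⟩
    · rw [D.R.dep_res x z' hz0 hz', hd]
      exact hzk
    · rw [D.R.dep_res x z' hz0 hz']
      exact D.R.res_res x z' _ hz0 hzk hx

theorem t (hONE : S_ONE) : S_WIN := by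
  intro H _ D A N x n k' hn hB hx hK hnear
  have hsn := s_pos D n
  have hs1 : D.s (n - 1) = D.B * D.s n := by
    have := s_mul D (n - 1) 1
    rw [pow_one, Nat.sub_add_cancel (by omega)] at this
    exact this
  -- a run of length `N` from `k` inside the slab
  have run : ∀ k : ℕ, k' * D.B < k → k + 2 * N < (k' + 1) * D.B →
      ∃ i : ℕ, i < N ∧ D.R.res x ((((k + 2 * i : ℕ) : ℝ) + 1) * D.s n) ∈
        D.kept n (D.R.res x (((k + 2 * i : ℕ) : ℝ) * D.s n)) := by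
    intro k h1 h2
    have hd : ((k : ℝ) + 2 * N) * D.s n ≤ D.R.dep x := by
      have h3 : ((k : ℝ) + 2 * N) ≤ (k' + 1) * D.B := by exact_mod_cast h2.le
      calc ((k : ℝ) + 2 * N) * D.s n ≤ ((k' + 1) * D.B) * D.s n :=
            mul_le_mul_of_nonneg_right h3 hsn.le
        _ = (k' + 1) * D.s (n - 1) := by rw [hs1, mul_assoc]
        _ ≤ D.R.dep x := hx
    obtain ⟨i, hi, hi2⟩ := hK x k (by omega) hd (by
      intro i hi
      have := hnear (k + 2 * i) (by omega) (by omega)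
      push_cast at this
      exact this)
    refine ⟨i, hi, ?_⟩
    push_cast
    exact hi2
  have hBB : k' * D.B + D.B = (k' + 1) * D.B := by ring
  obtain ⟨i₁, hi₁, hk₁⟩ := run (k' * D.B + 1) (by omega) (by omega)
  obtain ⟨i₂, hi₂, hk₂⟩ := run (k' * D.B + 2 * N + 2) (by omega) (by omega)
  set K₁ := k' * D.B + 1 + 2 * i₁ with hK₁
  set K₂ := k' * D.B + 2 * N + 2 + 2 * i₂ with hK₂
  have key : ∀ K : ℕ, k' * D.B < K → K + 1 < (k' + 1) * D.B →
      D.R.res x (((K : ℝ) + 1) * D.s n) ∈ D.kept n (D.R.res x ((K : ℝ) * D.s n)) →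
      (∀ (n₁ : ℕ) (z : ℝ), K * D.s n ≤ z → z < (K + 1) * D.s n → ¬ D.CP n₁ x z) ∨
      ∃ (m : ℕ) (z : ℝ), m < n ∧ K * D.s n ≤ z ∧ z < (K + 1) * D.s n ∧ D.CP m x z := by
    intro K h1 h2 h3
    by_cases hc : ∃ (m : ℕ) (z : ℝ), m < n ∧ K * D.s n ≤ z ∧ z < (K + 1) * D.s n ∧ D.CP m x z
    · exact Or.inr hc
    · left
      push Not at hc
      have hd : ((K : ℝ) + 1) * D.s n ≤ D.R.dep x := by
        have h4 : ((K : ℝ) + 1) ≤ (k' + 1) * D.B := by exact_mod_cast h2.le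
        calc ((K : ℝ) + 1) * D.s n ≤ ((k' + 1) * D.B) * D.s n :=
              mul_le_mul_of_nonneg_right h4 hsn.le
          _ = (k' + 1) * D.s (n - 1) := by rw [hs1, mul_assoc]
          _ ≤ D.R.dep x := hx
      exact fun n₁ z => no_cut D x n K (by omega) (by omega) hd h3 hc n₁ z
  rcases key K₁ (by omega) (by omega) hk₁ with h | ⟨m₁, z₁, hm₁, ha₁, hb₁, hc₁⟩
  · exact ⟨K₁, by omega, by omega, h⟩
  rcases key K₂ (by omega) (by omega) hk₂ with h | ⟨m₂, z₂, hm₂, ha₂, hb₂, hc₂⟩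
  · exact ⟨K₂, by omega, by omega, h⟩
  exfalso
  have e1 : (k' : ℝ) * D.s (n - 1) ≤ z₁ := by
    refine le_trans ?_ ha₁
    rw [hs1, ← mul_assoc]
    refine mul_le_mul_of_nonneg_right ?_ hsn.le
    exact_mod_cast (by omega : k' * D.B ≤ K₁)
  have e2 : z₁ < z₂ := by
    refine lt_of_lt_of_le hb₁ (le_trans ?_ ha₂)
    refine mul_le_mul_of_nonneg_right ?_ hsn.le
    exact_mod_cast (by omega : K₁ + 1 ≤ K₂)
  have e3 : z₂ < ((k' : ℝ) + 1) * D.s (n - 1) := by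
    refine lt_of_lt_of_le hb₂ ?_
    rw [hs1, ← mul_assoc]
    refine mul_le_mul_of_nonneg_right ?_ hsn.le
    exact_mod_cast (by omega : K₂ + 1 ≤ (k' + 1) * D.B)
  exact hONE H D x (n - 1) k' m₁ m₂ z₁ z₂ (by omega) (by omega) (by omega) e1 e2 e3 hc₁ hc₂

end Pool.Agent.Helper81.NT.WIN
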